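import Pool.Agent.Run7.h852.CO.Fin

/-!
# Four bodies with negative energy are nearly coplanar again and again

Let `V` be six times the signed volume of the tetrahedron of the four bodies, `J` the angular momentum
about the centre of mass and `S = ∑_{i<j} (m_i + m_j) / r_ij ^ 3`. Along every solution, as long as
`V ≠ 0`,

`(log |V|)'' + ((log |V|)') ^ 2 / 3 ≤ - S + M (J · G J) / (2 m_1 m_2 m_3 m_4 V ^ 2)`,

where `M` is the total mass and `G = ∑ m_i (x_i - c) (x_i - c)ᵀ`. (Write `x_i' - c' = W (x_i - c)` with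
a matrix `W`; then `(log V)' = tr W`, `(log V)'' = - S - tr W ^ 2`, and `tr W ^ 2` is at least
`(tr W) ^ 2 / 3` minus the square of the antisymmetric part of `W` in the metric `G`, which is given by
`J`.) If the energy is at most `-h < 0`, some distance is at most `∑_{i<j} m_i m_j / h`, so `S ≥ 2 κ`
with a constant `κ`, also for unbounded solutions, and `|V| ^ (1 / 3)` satisfies Sturm's comparison
inequality with the frequency `√(κ / 3)` while `2 m_1 m_2 m_3 m_4 κ V ^ 2 > M (J · G J)`. So in every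
time interval of length `π √(3 / κ)` the volume is at some instant at most a constant times
`(J · G J) ^ (1 / 2)`; if `J = 0` it vanishes.
-/

set_option autoImplicit false

namespace Pool.Agent.Results.MP_ba391d_an.NearlyCoplanarInstants

/-- The space `R³`. -/
abbrev R3 : Type := EuclideanSpace ℝ (Fin 3)

/-- The cross product. -/
def cross (a b : R3) : R3 :=
  !₂[a 1 * b 2 - a 2 * b 1, a 2 * b 0 - a 0 * b 2, a 0 * b 1 - a 1 * b 0]

/-- The determinant of `q₁ - q₀, q₂ - q₀, q₃ - q₀`: six times the signed volume of the tetrahedron of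
the four bodies. It is zero if and only if the bodies are coplanar. -/
noncomputable def volume6 (q : Fin 4 → R3) : ℝ :=
  inner ℝ (q 1 - q 0) (cross (q 2 - q 0) (q 3 - q 0))

/-- A collision-free solution of the four-body problem at the times of `I`, with the positions `x` and
the velocities `v`. -/
structure IsSolution (m : Fin 4 → ℝ) (I : Set ℝ) (x v : ℝ → Fin 4 → R3) : Prop where
  free : ∀ t ∈ I, ∀ i j, i ≠ j → x t i ≠ x t j
  velocity : ∀ t ∈ I, ∀ i, HasDerivAt (fun s => x s i) (v t i) t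
  newton : ∀ t ∈ I, ∀ i, HasDerivAt (fun s => v s i)
    (∑ j, (m j / ‖x t j - x t i‖ ^ 3) • (x t j - x t i)) t

/-- The energy at the positions `q` and velocities `w`: kinetic energy minus
`∑_{i<j} m_i m_j / |q_i - q_j|`. -/
noncomputable def energy (m : Fin 4 → ℝ) (q w : Fin 4 → R3) : ℝ :=
  ∑ i, m i * ‖w i‖ ^ 2 / 2 - ∑ i, ∑ j, m i * m j / ‖q i - q j‖ / 2

/-- The centre of mass (or its velocity). -/
noncomputable def centre (m : Fin 4 → ℝ) (q : Fin 4 → R3) : R3 := (∑ i, m i)⁻¹ • ∑ i, m i • q i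

/-- The angular momentum about the centre of mass. -/
noncomputable def angularMomentum (m : Fin 4 → ℝ) (q w : Fin 4 → R3) : R3 :=
  ∑ i, m i • cross (q i - centre m q) (w i - centre m w)

/-- `∑_{i<j} m_i m_j`. -/
noncomputable def pairs (m : Fin 4 → ℝ) : ℝ := ((∑ i, m i) ^ 2 - ∑ i, m i ^ 2) / 2

/-- `κ = μ h ^ 3 / (∑_{i<j} m_i m_j) ^ 3`. -/
noncomputable def rate (m : Fin 4 → ℝ) (μ h : ℝ) : ℝ := μ * h ^ 3 / pairs m ^ 3

theorem vol_eq (q : Fin 4 → R3) : volume6 q = Run7.h852.CO.Vl q := Run7.h852.CO.inner_cr _ _ _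

theorem ang_eq {m : Fin 4 → ℝ} (hm : ∀ i, 0 < m i) (q w : Fin 4 → R3) :
    Run7.h852.CO.ang m q w = angularMomentum m q w := Run7.h852.CO.ang_eq m hm q w

theorem sol {m : Fin 4 → ℝ} {I : Set ℝ} {x v : ℝ → Fin 4 → R3} (h : IsSolution m I x v) :
    Run7.h852.CO.IsSol m I x v := ⟨h.free, h.velocity, h.newton⟩

/-- Let `m_i ≥ μ > 0` be the masses, and let a collision-free solution of the spatial four-body problem,
bounded or not, have energy at most `-h < 0`. Put `κ = μ h ^ 3 / (∑_{i<j} m_i m_j) ^ 3`. Then every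
time interval `[a, b]` of length at least `π √(3 / κ)` contains an instant `t` at which

`2 m_0 m_1 m_2 m_3 κ V ^ 2 ≤ M ∑ m_i (J · (x_i - c)) ^ 2`,

`V` = six times the signed volume, `M` = total mass, `c` = centre of mass, `J` = angular momentum about
`c`; in particular the bodies are coplanar at this instant if `J = 0`. -/
theorem result (m : Fin 4 → ℝ) (hm : ∀ i, 0 < m i) (μ h : ℝ) (hμ : 0 < μ) (hμm : ∀ i, μ ≤ m i)
    (hh : 0 < h) (I : Set ℝ) (x v : ℝ → Fin 4 → R3) (hs : IsSolution m I x v)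
    (hE : ∀ t ∈ I, energy m (x t) (v t) ≤ -h) (a b : ℝ) (hI : Set.Icc a b ⊆ I)
    (hab : Real.pi * √(3 / rate m μ h) ≤ b - a) :
    ∃ t ∈ Set.Icc a b,
      2 * (m 0 * m 1 * m 2 * m 3) * rate m μ h * volume6 (x t) ^ 2 ≤
        (∑ i, m i) * ∑ i, m i *
          inner ℝ (angularMomentum m (x t) (v t)) (x t i - centre m (x t)) ^ 2 ∧
      (angularMomentum m (x t) (v t) = 0 → volume6 (x t) = 0) := by
  obtain ⟨t, ht, h1⟩ := Run7.h852.CO.energy_main hm hμ hμm hh (sol hs) hE a b hI hab
  rw [Run7.h852.CO.QJ_eq m hm, ang_eq hm, ← vol_eq] at h1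
  have h2 : 2 * (m 0 * m 1 * m 2 * m 3) * rate m μ h * volume6 (x t) ^ 2 ≤
      (∑ i, m i) * ∑ i, m i *
        inner ℝ (angularMomentum m (x t) (v t)) (x t i - centre m (x t)) ^ 2 := h1
  refine ⟨t, ht, h2, fun hJ => ?_⟩
  rw [hJ] at h2
  simp only [inner_zero_left, ne_eq, OfNat.ofNat_ne_zero, not_false_eq_true, zero_pow, mul_zero,
    Finset.sum_const_zero] at h2
  have hP : 0 < pairs m := by
    have hPe : pairs m = m 0 * m 1 + m 0 * m 2 + m 0 * m 3 + m 1 * m 2 + m 1 * m 3 + m 2 * m 3 := by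
      unfold pairs; simp only [Fin.sum_univ_four]; ring
    rw [hPe]
    have := hm 0; have := hm 1; have := hm 2; have := hm 3; positivity
  have hκ : 0 < rate m μ h := by unfold rate; positivity
  have hc : 0 < 2 * (m 0 * m 1 * m 2 * m 3) * rate m μ h := by
    have := hm 0; have := hm 1; have := hm 2; have := hm 3; positivity
  have h3 : volume6 (x t) ^ 2 ≤ 0 := by
    by_contra hcon
    push Not at hcon
    have := mul_pos hc hcon
    linarith
  exact pow_eq_zero_iff (two_ne_zero) |>.1 (le_antisymm h3 (sq_nonneg _))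

end Pool.Agent.Results.MP_ba391d_an.NearlyCoplanarInstants
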